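import Pool.Agent.P8H67.TU.Stm

/-!
Project TU, package FLOW, first part: exponentials of commuting nilpotent elements.
-/

set_option autoImplicit false

open Set Filter Topology

namespace Pool.Agent.P8H5.TU

section Alg
variable {R : Type*} [NormedRing R] [NormedAlgebra ℝ R] [CompleteSpace R]

omit [CompleteSpace R] in
theorem exp_sum (c : R) (K : ℕ) (h : c ^ K = 0) :
    NormedSpace.exp c = ∑ i ∈ Finset.range K, ((i.factorial : ℝ)⁻¹) • c ^ i := by
  rw [congrFun (NormedSpace.exp_eq_tsum ℝ) c]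
  refine tsum_eq_sum fun i hi => ?_
  rw [Finset.mem_range, not_lt] at hi
  rw [pow_eq_zero_of_le hi h, smul_zero]

theorem exp_add' {x y : R} (hxy : Commute x y) :
    NormedSpace.exp (x + y) = NormedSpace.exp x * NormedSpace.exp y := by
  let _ : NormedAlgebra ℚ R := NormedAlgebra.restrictScalars ℚ ℝ R
  exact NormedSpace.exp_add_of_commute hxy

theorem exp_conj' (y : Rˣ) (x : R) :
    NormedSpace.exp (y * x * ↑y⁻¹ : R) = y * NormedSpace.exp x * ↑y⁻¹ := by
  let _ : NormedAlgebra ℚ R := NormedAlgebra.restrictScalars ℚ ℝ R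
  exact NormedSpace.exp_units_conj y x

omit [NormedAlgebra ℝ R] [CompleteSpace R] in
theorem nilp_add {x y : R} (h : Commute x y) (hx : IsNilpotent x) (hy : IsNilpotent y) :
    IsNilpotent (x + y) := h.isNilpotent_add hx hy

end Alg

section Op
variable {F : Type*} [NormedAddCommGroup F] [NormedSpace ℝ F] [CompleteSpace F]

omit [CompleteSpace F] in
theorem fix (c : F →L[ℝ] F) (hc : IsNilpotent c) (q : F) (h : NormedSpace.exp c q = q) :
    c q = 0 := by
  obtain ⟨K, hK⟩ := hc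
  have hK2 : c ^ (K + 2) = 0 := pow_eq_zero_of_le (by omega) hK
  have key : ∀ m : ℕ, (c ^ (m + 1)) q = 0 → c q = 0 := by
    intro m
    induction m with
    | zero => intro h1; rwa [zero_add, pow_one] at h1
    | succ m ih =>
      intro h1
      apply ih
      have h2 : (c ^ m * NormedSpace.exp c) q = (c ^ m) q := by
        show (c ^ m) (NormedSpace.exp c q) = (c ^ m) q
        rw [h]
      have h3 : ∀ j : ℕ, (c ^ (m + 1 + 1 + j)) q = 0 := by
        intro j
        rw [add_comm, pow_add]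
        show (c ^ j) ((c ^ (m + 1 + 1)) q) = 0
        rw [h1, map_zero]
      rw [exp_sum c (K + 2) hK2, Finset.mul_sum, Finset.sum_range_succ', Finset.sum_range_succ']
        at h2
      have h4 : (∑ k ∈ Finset.range K, c ^ m *
          (((k + 1 + 1).factorial : ℝ)⁻¹ • c ^ (k + 1 + 1))) q = 0 := by
        rw [ContinuousLinearMap.sum_apply]
        refine Finset.sum_eq_zero fun k _ => ?_
        rw [mul_smul_comm, ← pow_add, ContinuousLinearMap.smul_apply]
        have : m + (k + 1 + 1) = m + 1 + 1 + k := by omega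
        rw [this, h3, smul_zero]
      rw [ContinuousLinearMap.add_apply, ContinuousLinearMap.add_apply, h4, zero_add] at h2
      rw [zero_add, Nat.factorial_one, Nat.factorial_zero, Nat.cast_one, inv_one, one_smul,
        one_smul, pow_zero, mul_one, ← pow_add] at h2
      exact left_eq_add.mp (h2.symm.trans (add_comm _ _))
  exact key K (by rw [pow_succ', hK, mul_zero]; rfl)

omit [CompleteSpace F] in
theorem exp_one_zero (c : F →L[ℝ] F) (hc : IsNilpotent c) (h : NormedSpace.exp c = 1) :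
    c = 0 := by
  refine ContinuousLinearMap.ext fun q => ?_
  exact fix c hc q (by rw [h]; rfl)

theorem nilp_uniq (a b : F →L[ℝ] F) (ha : IsNilpotent a) (hb : IsNilpotent b)
    (hab : Commute a b) (h : NormedSpace.exp a = NormedSpace.exp b) : a = b := by
  have h1 : NormedSpace.exp (a + -b) = 1 := by
    rw [exp_add' hab.neg_right, h, ← exp_add' (Commute.refl b).neg_right, add_neg_cancel,
      NormedSpace.exp_zero]
  have h2 : IsNilpotent (a + -b) := nilp_add hab.neg_right ha hb.neg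
  have h3 := exp_one_zero _ h2 h1
  rwa [← sub_eq_add_neg, sub_eq_zero] at h3

omit [CompleteSpace F] in
/-- if `c` is nilpotent with `c q = 0` then `exp c` fixes `q` -/
theorem fix_of (c : F →L[ℝ] F) (hc : IsNilpotent c) (q : F) (h : c q = 0) :
    NormedSpace.exp c q = q := by
  obtain ⟨K, hK⟩ := hc
  have hK2 : c ^ (K + 1) = 0 := pow_eq_zero_of_le (by omega) hK
  rw [exp_sum c (K + 1) hK2, Finset.sum_range_succ', ContinuousLinearMap.add_apply,
    ContinuousLinearMap.sum_apply]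
  have h4 : ∑ k ∈ Finset.range K, (((k + 1).factorial : ℝ)⁻¹ • c ^ (k + 1)) q = 0 := by
    refine Finset.sum_eq_zero fun k _ => ?_
    rw [ContinuousLinearMap.smul_apply, pow_succ]
    show _ • (c ^ k) (c q) = 0
    rw [h, map_zero, smul_zero]
  rw [h4, zero_add, Nat.factorial_zero, Nat.cast_one, inv_one, one_smul, pow_zero]
  rfl

/-- `exp c` preserves a linear function killed by `c` -/
theorem exp_snd {E : Type*} [NormedAddCommGroup E] [NormedSpace ℝ E]
    (c : (E × ℝ) →L[ℝ] (E × ℝ)) (hc : IsNilpotent c) (h : ∀ x, (c x).2 = 0) (x : E × ℝ) :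
    (NormedSpace.exp c x).2 = x.2 := by
  obtain ⟨K, hK⟩ := hc
  have hK2 : c ^ (K + 1) = 0 := pow_eq_zero_of_le (by omega) hK
  rw [exp_sum c (K + 1) hK2, Finset.sum_range_succ', ContinuousLinearMap.add_apply,
    ContinuousLinearMap.sum_apply, Prod.snd_add, Prod.snd_sum]
  have h4 : ∑ k ∈ Finset.range K, ((((k + 1).factorial : ℝ)⁻¹ • c ^ (k + 1)) x).2 = 0 := by
    refine Finset.sum_eq_zero fun k _ => ?_
    rw [ContinuousLinearMap.smul_apply, pow_succ', Prod.smul_snd]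
    show _ • (c ((c ^ k) x)).2 = 0
    rw [h, smul_zero]
  rw [h4, zero_add, Nat.factorial_zero, Nat.cast_one, inv_one, one_smul, pow_zero]
  rfl

end Op

/-! ## the linear map of `E × ℝ` given by an affine map of `E` -/

section Hom
variable {E : Type} [NormedAddCommGroup E] [NormedSpace ℝ E] [FiniteDimensional ℝ E]

/-- the linear part -/
noncomputable def ln (g : E ≃ᵃ[ℝ] E) : E →L[ℝ] E :=
  LinearMap.toContinuousLinearMap (g.linear : E →ₗ[ℝ] E)

theorem ln_apply (g : E ≃ᵃ[ℝ] E) (v : E) : ln g v = g.linear v := rfl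

theorem aff_eq (g : E ≃ᵃ[ℝ] E) (p : E) : g p = ln g p + g 0 := by
  have h := g.map_vadd 0 p
  rw [vadd_eq_add, add_zero, vadd_eq_add] at h
  exact h

/-- the linear map of `E × ℝ` -/
noncomputable def hmm (g : E ≃ᵃ[ℝ] E) : (E × ℝ) →L[ℝ] (E × ℝ) :=
  ((ln g).comp (ContinuousLinearMap.fst ℝ E ℝ) +
    (ContinuousLinearMap.snd ℝ E ℝ).smulRight (g 0)).prod (ContinuousLinearMap.snd ℝ E ℝ)

theorem hmm_apply (g : E ≃ᵃ[ℝ] E) (x : E × ℝ) : hmm g x = (ln g x.1 + x.2 • g 0, x.2) := rfl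

theorem hmm_point (g : E ≃ᵃ[ℝ] E) (p : E) : hmm g (p, 1) = (g p, 1) := by
  rw [hmm_apply, one_smul, ← aff_eq]

theorem hmm_mul (g h : E ≃ᵃ[ℝ] E) : hmm (g * h) = hmm g * hmm h := by
  refine ContinuousLinearMap.ext fun x => Prod.ext ?_ rfl
  show ln (g * h) x.1 + x.2 • (g * h) 0 = ln g (ln h x.1 + x.2 • h 0) + x.2 • g 0
  have h1 : (g * h) 0 = ln g (h 0) + g 0 := by
    rw [← aff_eq]; rfl
  have h2 : ln (g * h) x.1 = ln g (ln h x.1) := rfl
  rw [h1, h2, map_add, map_smul, smul_add, add_assoc]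

theorem hmm_one : hmm (1 : E ≃ᵃ[ℝ] E) = 1 := by
  refine ContinuousLinearMap.ext fun x => Prod.ext ?_ rfl
  show ln (1 : E ≃ᵃ[ℝ] E) x.1 + x.2 • (1 : E ≃ᵃ[ℝ] E) 0 = x.1
  have h1 : (1 : E ≃ᵃ[ℝ] E) (0 : E) = 0 := rfl
  have h2 : ln (1 : E ≃ᵃ[ℝ] E) x.1 = x.1 := rfl
  rw [h1, h2, smul_zero, add_zero]

/-- the unit of the algebra given by an affine map -/
noncomputable def hu : (E ≃ᵃ[ℝ] E) →* ((E × ℝ) →L[ℝ] (E × ℝ))ˣ :=
  MonoidHom.toHomUnits
    { toFun := hmm
      map_one' := hmm_one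
      map_mul' := hmm_mul }

theorem hu_val (g : E ≃ᵃ[ℝ] E) : ((hu g : ((E × ℝ) →L[ℝ] (E × ℝ))ˣ) : (E × ℝ) →L[ℝ] (E × ℝ)) = hmm g :=
  rfl

theorem hu_inv (g : E ≃ᵃ[ℝ] E) :
    (((hu g)⁻¹ : ((E × ℝ) →L[ℝ] (E × ℝ))ˣ) : (E × ℝ) →L[ℝ] (E × ℝ)) = hmm g⁻¹ := by
  rw [← map_inv, hu_val]

theorem hmm_nil (g : E ≃ᵃ[ℝ] E) (h : IsNilpotent ((g.linear : E →ₗ[ℝ] E) - LinearMap.id)) :
    IsNilpotent (hmm g - 1) := by
  obtain ⟨m, hm⟩ := h
  refine ⟨m + 1, ContinuousLinearMap.ext fun x => ?_⟩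
  let L : Module.End ℝ E := (g.linear : E →ₗ[ℝ] E) - LinearMap.id
  have hL : L ^ m = 0 := hm
  have h1 : ∀ (k : ℕ) (v : E), ((hmm g - 1) ^ k) (v, 0) = ((L ^ k) v, 0) := by
    intro k
    induction k with
    | zero => intro v; rfl
    | succ k ih =>
      intro v
      rw [pow_succ, pow_succ]
      show ((hmm g - 1) ^ k) ((hmm g - 1) (v, 0)) = ((L ^ k) (L v), 0)
      rw [← ih]
      refine congrArg _ (Prod.ext ?_ ?_)
      · show ln g v + (0 : ℝ) • g 0 - v = g.linear v - v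
        rw [zero_smul, add_zero]; rfl
      · show (0 : ℝ) - 0 = 0
        exact sub_zero 0
  have h2 : (hmm g - 1) x = (((hmm g - 1) x).1, 0) := by
    refine Prod.ext rfl ?_
    show x.2 - x.2 = 0
    exact sub_self _
  rw [pow_succ]
  show ((hmm g - 1) ^ m) ((hmm g - 1) x) = 0
  rw [h2, h1, hL]
  rfl

end Hom

end Pool.Agent.P8H5.TU
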