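import Pool.Agent.P8H5.TU.Alg

/-!
Project TU, package FLOW: the flow of a commutative normal group of unipotent affine maps.
-/

set_option autoImplicit false

open Set Filter Topology

namespace Pool.Agent.P8H5.TU

open Pool.Agent.P8H67.TU

section
variable {E Γ : Type} [NormedAddCommGroup E] [NormedSpace ℝ E] [FiniteDimensional ℝ E] [Group Γ]

/-- the algebra of the endomorphisms of `E × ℝ` -/
abbrev RR (E : Type) [NormedAddCommGroup E] [NormedSpace ℝ E] := (E × ℝ) →L[ℝ] (E × ℝ)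

/-- the set of the logarithms -/
def LS (hol : Γ →* (E ≃ᵃ[ℝ] E)) (N : Subgroup Γ) : Set (RR E) :=
  {l | IsNilpotent l ∧ (∀ x, (l x).2 = 0) ∧ ∃ ν ∈ N, NormedSpace.exp l = hmm (hol ν) ∧
    ∀ y : RR E, Commute (hmm (hol ν)) y → Commute l y}

theorem lg (hlog : S_LOG) (g : E ≃ᵃ[ℝ] E)
    (h : IsNilpotent ((g.linear : E →ₗ[ℝ] E) - LinearMap.id)) :
    ∃ l : RR E, IsNilpotent l ∧ (∀ x, (l x).2 = 0) ∧ NormedSpace.exp l = hmm g ∧
      ∀ y : RR E, Commute (hmm g) y → Commute l y := by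
  have : CompleteSpace (E × ℝ) := FiniteDimensional.complete ℝ _
  have hX := hmm_nil g h
  obtain ⟨z, hz, he⟩ := hlog (RR E) (hmm g - 1) hX
  have hc : ∀ y : RR E, Commute (hmm g - 1) y → Commute z y := by
    intro y hy
    have h1 : Algebra.adjoin ℝ {hmm g - 1} ≤ Subalgebra.centralizer ℝ {y} := by
      refine Algebra.adjoin_le fun t ht => ?_
      rw [Set.mem_singleton_iff] at ht
      subst ht
      show _ ∈ Subalgebra.centralizer ℝ {y}
      rw [Subalgebra.mem_centralizer_iff]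
      intro s hs
      rw [Set.mem_singleton_iff] at hs
      subst hs
      exact hy.symm
    have h2 := h1 hz
    rw [Subalgebra.mem_centralizer_iff] at h2
    exact (h2 y (Set.mem_singleton y)).symm
  have hXz : Commute (hmm g - 1) z := (hc _ (Commute.refl _)).symm
  refine ⟨(hmm g - 1) * z, ?_, ?_, ?_, ?_⟩
  · obtain ⟨m, hm⟩ := hX
    exact ⟨m, by rw [hXz.mul_pow, hm, zero_mul]⟩
  · intro x
    show (z x).2 - (z x).2 = 0
    exact sub_self _
  · rw [he]; exact add_sub_cancel _ _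
  · intro y hy
    have h1 : Commute (hmm g - 1) y := hy.sub_left (Commute.one_left y)
    exact h1.mul_left (hc y h1)

theorem ls_comm (hol : Γ →* (E ≃ᵃ[ℝ] E)) (N : Subgroup Γ)
    (hN : ∀ a ∈ N, ∀ b ∈ N, a * b = b * a) (l l' : RR E) (h : l ∈ LS hol N) (h' : l' ∈ LS hol N) :
    Commute l l' := by
  obtain ⟨_, _, ν, hν, _, hc⟩ := h
  obtain ⟨_, _, ν', hν', _, hc'⟩ := h'
  have h1 : Commute (hmm (hol ν)) (hmm (hol ν')) := by
    show hmm (hol ν) * hmm (hol ν') = hmm (hol ν') * hmm (hol ν)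
    rw [← hmm_mul, ← hmm_mul, ← map_mul, ← map_mul, hN ν hν ν' hν']
  exact (hc' l (hc _ h1).symm).symm

theorem ls_conj (hol : Γ →* (E ≃ᵃ[ℝ] E)) (N : Subgroup Γ) [N.Normal] (γ : Γ) (l : RR E)
    (h : l ∈ LS hol N) :
    (hu (hol γ) : RR E) * l * ((hu (hol γ))⁻¹ : (RR E)ˣ) ∈ LS hol N := by
  have : CompleteSpace (E × ℝ) := FiniteDimensional.complete ℝ _
  obtain ⟨⟨m, hm⟩, hs, ν, hν, he, hc⟩ := h
  refine ⟨⟨m, ?_⟩, ?_, γ * ν * γ⁻¹, ‹N.Normal›.conj_mem ν hν γ, ?_, ?_⟩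
  · rw [Units.conj_pow, hm, mul_zero, zero_mul]
  · intro x
    show (l ((((hu (hol γ))⁻¹ : (RR E)ˣ) : RR E) x)).2 = 0
    exact hs _
  · rw [exp_conj', he, map_mul, map_mul, hmm_mul, hmm_mul, hu_val, hu_inv, map_inv]
  · intro y hy
    have h1 : hmm (hol (γ * ν * γ⁻¹)) =
        (hu (hol γ) : RR E) * hmm (hol ν) * ((hu (hol γ))⁻¹ : (RR E)ˣ) := by
      rw [map_mul, map_mul, hmm_mul, hmm_mul, hu_val, hu_inv, map_inv]
    rw [h1] at hy
    generalize hu (hol γ) = u at hy ⊢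
    have h2 : Commute (hmm (hol ν)) ((u⁻¹ : (RR E)ˣ) * y * u) := by
      have h3 : (u : RR E) * hmm (hol ν) * (u⁻¹ : (RR E)ˣ) * y =
        y * ((u : RR E) * hmm (hol ν) * (u⁻¹ : (RR E)ˣ)) := hy
      show hmm (hol ν) * ((u⁻¹ : (RR E)ˣ) * y * u) = (u⁻¹ : (RR E)ˣ) * y * u * hmm (hol ν)
      calc hmm (hol ν) * ((u⁻¹ : (RR E)ˣ) * y * u)
          = (u⁻¹ : (RR E)ˣ) * ((u : RR E) * hmm (hol ν) * (u⁻¹ : (RR E)ˣ) * y) * u := by
            simp only [mul_assoc, Units.inv_mul_cancel_left]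
        _ = (u⁻¹ : (RR E)ˣ) * y * u * hmm (hol ν) := by
            rw [h3]
            simp only [mul_assoc, Units.inv_mul, mul_one]
    have h4 := hc _ h2
    have h5 : l * ((u⁻¹ : (RR E)ˣ) * y * u) = (u⁻¹ : (RR E)ˣ) * y * u * l := h4
    show (u : RR E) * l * (u⁻¹ : (RR E)ˣ) * y = y * ((u : RR E) * l * (u⁻¹ : (RR E)ˣ))
    calc (u : RR E) * l * (u⁻¹ : (RR E)ˣ) * y
        = u * (l * ((u⁻¹ : (RR E)ˣ) * y * u)) * (u⁻¹ : (RR E)ˣ) := by
          simp only [mul_assoc, Units.mul_inv, mul_one]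
      _ = y * ((u : RR E) * l * (u⁻¹ : (RR E)ˣ)) := by
          rw [h5]
          simp only [mul_assoc, Units.mul_inv_cancel_left]

/-- the span of the logarithms -/
def AA (hol : Γ →* (E ≃ᵃ[ℝ] E)) (N : Subgroup Γ) : Submodule ℝ (RR E) := Submodule.span ℝ (LS hol N)

theorem aa_comm (hol : Γ →* (E ≃ᵃ[ℝ] E)) (N : Subgroup Γ)
    (hN : ∀ a ∈ N, ∀ b ∈ N, a * b = b * a) (a b : RR E) (ha : a ∈ AA hol N) (hb : b ∈ AA hol N) :
    Commute a b := by
  have h1 : ∀ l ∈ LS hol N, ∀ b ∈ AA hol N, Commute l b := by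
    intro l hl b hb
    refine Submodule.span_induction (p := fun b _ => Commute l b)
      (fun x hx => ls_comm hol N hN l x hl hx) (Commute.zero_right l)
      (fun x y _ _ h1 h2 => h1.add_right h2) (fun r x _ h1 => h1.smul_right r) hb
  exact Submodule.span_induction (p := fun a _ => Commute a b)
      (fun x hx => h1 x hx b hb) (Commute.zero_left b)
      (fun x y _ _ h1 h2 => h1.add_left h2) (fun r x _ h1 => h1.smul_left r) ha

theorem aa_nil (hol : Γ →* (E ≃ᵃ[ℝ] E)) (N : Subgroup Γ)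
    (hN : ∀ a ∈ N, ∀ b ∈ N, a * b = b * a) (a : RR E) (ha : a ∈ AA hol N) : IsNilpotent a := by
  refine Submodule.span_induction (p := fun a _ => IsNilpotent a)
      (fun x hx => hx.1) IsNilpotent.zero
      (fun x y hx hy h1 h2 => nilp_add (aa_comm hol N hN x y hx hy) h1 h2)
      (fun r x _ h1 => ?_) ha
  obtain ⟨m, hm⟩ := h1
  exact ⟨m, by rw [smul_pow, hm, smul_zero]⟩

theorem aa_snd (hol : Γ →* (E ≃ᵃ[ℝ] E)) (N : Subgroup Γ) (a : RR E) (ha : a ∈ AA hol N) :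
    ∀ x, (a x).2 = 0 := by
  refine Submodule.span_induction (p := fun a _ => ∀ x, (a x).2 = 0)
      (fun x hx => hx.2.1) (fun x => rfl)
      (fun x y _ _ h1 h2 t => ?_) (fun r x _ h1 t => ?_) ha
  · show (x t).2 + (y t).2 = 0
    rw [h1, h2, add_zero]
  · show r * (x t).2 = 0
    rw [h1, mul_zero]

theorem aa_conj (hol : Γ →* (E ≃ᵃ[ℝ] E)) (N : Subgroup Γ) [N.Normal] (γ : Γ) (a : RR E)
    (ha : a ∈ AA hol N) :
    (hu (hol γ) : RR E) * a * ((hu (hol γ))⁻¹ : (RR E)ˣ) ∈ AA hol N := by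
  refine Submodule.span_induction
      (p := fun a _ => (hu (hol γ) : RR E) * a * ((hu (hol γ))⁻¹ : (RR E)ˣ) ∈ AA hol N)
      (fun x hx => Submodule.subset_span (ls_conj hol N γ x hx)) ?_
      (fun x y _ _ h1 h2 => ?_) (fun r x _ h1 => ?_) ha
  · rw [mul_zero, zero_mul]; exact Submodule.zero_mem _
  · rw [mul_add, add_mul]; exact Submodule.add_mem _ h1 h2
  · rw [mul_smul_comm, smul_mul_assoc]; exact Submodule.smul_mem _ r h1

/-- conjugation on the span of the logarithms -/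
noncomputable def cj (hol : Γ →* (E ≃ᵃ[ℝ] E)) (N : Subgroup Γ) [N.Normal] :
    Γ →* Module.End ℝ (AA hol N) where
  toFun γ :=
    { toFun := fun a => ⟨_, aa_conj hol N γ a.1 a.2⟩
      map_add' := fun a b => Subtype.ext (by
        show (hu (hol γ) : RR E) * (a.1 + b.1) * ((hu (hol γ))⁻¹ : (RR E)ˣ) =
          (hu (hol γ) : RR E) * a.1 * ((hu (hol γ))⁻¹ : (RR E)ˣ) +
          (hu (hol γ) : RR E) * b.1 * ((hu (hol γ))⁻¹ : (RR E)ˣ)
        rw [mul_add, add_mul])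
      map_smul' := fun r a => Subtype.ext (by
        show (hu (hol γ) : RR E) * (r • a.1) * ((hu (hol γ))⁻¹ : (RR E)ˣ) =
          r • ((hu (hol γ) : RR E) * a.1 * ((hu (hol γ))⁻¹ : (RR E)ˣ))
        rw [mul_smul_comm, smul_mul_assoc]) }
  map_one' := LinearMap.ext fun a => Subtype.ext (by
    show (hu (hol 1) : RR E) * a.1 * ((hu (hol 1))⁻¹ : (RR E)ˣ) = a.1
    rw [map_one, map_one, inv_one, Units.val_one, one_mul, mul_one])
  map_mul' γ δ := LinearMap.ext fun a => Subtype.ext (by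
    show (hu (hol (γ * δ)) : RR E) * a.1 * ((hu (hol (γ * δ)))⁻¹ : (RR E)ˣ) =
      (hu (hol γ) : RR E) * ((hu (hol δ) : RR E) * a.1 * ((hu (hol δ))⁻¹ : (RR E)ˣ)) *
        ((hu (hol γ))⁻¹ : (RR E)ˣ)
    rw [map_mul, map_mul, mul_inv_rev, Units.val_mul, Units.val_mul]
    simp only [mul_assoc])

theorem cj_val (hol : Γ →* (E ≃ᵃ[ℝ] E)) (N : Subgroup Γ) [N.Normal] (γ : Γ) (a : AA hol N) :
    ((cj hol N γ a : AA hol N) : RR E) =
      (hu (hol γ) : RR E) * a.1 * ((hu (hol γ))⁻¹ : (RR E)ˣ) := rfl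

/-- the representation on `ℝ^d` -/
noncomputable def th (hol : Γ →* (E ≃ᵃ[ℝ] E)) (N : Subgroup Γ) [N.Normal] {V : Type}
    [AddCommGroup V] [Module ℝ V] (e : V ≃ₗ[ℝ] AA hol N) : Γ →* (V ≃ₗ[ℝ] V) :=
  (LinearMap.GeneralLinearGroup.generalLinearEquiv ℝ V).toMonoidHom.comp
    (MonoidHom.toHomUnits
      { toFun := fun γ => (e.symm : AA hol N →ₗ[ℝ] V) ∘ₗ (cj hol N γ) ∘ₗ (e : V →ₗ[ℝ] AA hol N)
        map_one' := LinearMap.ext fun a => by
          show e.symm (cj hol N 1 (e a)) = a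
          rw [map_one]
          exact e.symm_apply_apply a
        map_mul' := fun γ δ => LinearMap.ext fun a => by
          show e.symm (cj hol N (γ * δ) (e a)) = e.symm (cj hol N γ (e (e.symm (cj hol N δ (e a)))))
          rw [map_mul, e.apply_symm_apply]
          rfl })

theorem th_apply (hol : Γ →* (E ≃ᵃ[ℝ] E)) (N : Subgroup Γ) [N.Normal] {V : Type}
    [AddCommGroup V] [Module ℝ V] (e : V ≃ₗ[ℝ] AA hol N) (γ : Γ) (a : V) :
    e (th hol N e γ a) = cj hol N γ (e a) := by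
  show e (e.symm (cj hol N γ (e a))) = _
  exact e.apply_symm_apply _

theorem eb (M : Type) [AddCommGroup M] [Module ℝ M] [FiniteDimensional ℝ M]
    (A : Submodule ℝ M) : ∃ d : ℕ, Nonempty ((Fin d → ℝ) ≃ₗ[ℝ] A) :=
  ⟨_, ⟨(Module.finBasis ℝ A).equivFun.symm⟩⟩

end

theorem flow : S_FLOW := by
  intro hlog E Γ _ _ _ _ hol N _ hN hu'
  have : CompleteSpace (E × ℝ) := FiniteDimensional.complete ℝ _
  obtain ⟨d, ⟨e⟩⟩ := eb (RR E) (AA hol N)
  let e' : (Fin d → ℝ) →L[ℝ] RR E :=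
    LinearMap.toContinuousLinearMap ((AA hol N).subtype ∘ₗ (e : (Fin d → ℝ) →ₗ[ℝ] AA hol N))
  have he' : ∀ a, e' a = (e a : RR E) := fun a => rfl
  have hnil : ∀ a, IsNilpotent (e' a) := fun a => aa_nil hol N hN _ (e a).2
  have hcom : ∀ a b, Commute (e' a) (e' b) := fun a b => aa_comm hol N hN _ _ (e a).2 (e b).2
  have hsnd : ∀ a x, (e' a x).2 = 0 := fun a => aa_snd hol N _ (e a).2
  let Φ : (Fin d → ℝ) → E → E := fun a p => (NormedSpace.exp (e' a) (p, 1)).1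
  have hΦ : ∀ a p, NormedSpace.exp (e' a) (p, 1) = (Φ a p, 1) := fun a p =>
    Prod.ext rfl (exp_snd _ (hnil a) (hsnd a) _)
  have hfix : ∀ a p, Φ a p = p ↔ e' a (p, 1) = 0 := by
    intro a p
    constructor
    · intro h
      refine fix _ (hnil a) _ ?_
      rw [hΦ, h]
    · intro h
      have := fix_of _ (hnil a) _ h
      rw [hΦ] at this
      exact congrArg Prod.fst this
  have hnu : ∀ ν a, NormedSpace.exp (e' a) = hmm (hol ν) → ∀ p, hol ν p = Φ a p := by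
    intro ν a h p
    have h1 := hΦ a p
    rw [h, hmm_point] at h1
    exact congrArg Prod.fst h1
  refine ⟨d, Φ, th hol N e, ?_, ?_, ?_, ?_, ?_, ?_, ?_, ?_, ?_⟩
  · -- smooth
    have h1 : ContDiff ℝ 1 (NormedSpace.exp : RR E → RR E) :=
      contDiff_iff_contDiffAt.mpr fun x => (NormedSpace.exp_analytic x).contDiffAt
    have h2 : ContDiff ℝ 1 (fun x : (Fin d → ℝ) × E =>
        NormedSpace.exp (e' x.1)) := h1.comp (e'.contDiff.comp contDiff_fst)
    have h3 : ContDiff ℝ 1 (fun x : (Fin d → ℝ) × E => ((x.2, 1) : E × ℝ)) :=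
      contDiff_snd.prodMk contDiff_const
    exact contDiff_fst.comp (h2.clm_apply h3)
  · -- zero
    intro p
    show (NormedSpace.exp (e' 0) (p, 1)).1 = p
    rw [map_zero, NormedSpace.exp_zero]
    rfl
  · -- add
    intro a b p
    show (NormedSpace.exp (e' (a + b)) (p, 1)).1 = (NormedSpace.exp (e' a) (Φ b p, 1)).1
    rw [map_add, exp_add' (hcom a b), ← hΦ b p]
    rfl
  · -- equi
    intro γ a p
    have h1 : e' (th hol N e γ a) =
        (hu (hol γ) : RR E) * e' a * ((hu (hol γ))⁻¹ : (RR E)ˣ) := by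
      rw [he', th_apply]
      rfl
    have h2 : NormedSpace.exp (e' (th hol N e γ a)) (hol γ p, 1) =
        hmm (hol γ) (NormedSpace.exp (e' a) (p, 1)) := by
      rw [h1, exp_conj', ← hmm_point]
      show (hu (hol γ) : RR E) (NormedSpace.exp (e' a)
        ((((hu (hol γ))⁻¹ : (RR E)ˣ) * (hu (hol γ) : RR E) : RR E) (p, 1))) = _
      rw [Units.inv_mul]
      rfl
    rw [hΦ, hΦ, hmm_point] at h2
    exact (congrArg Prod.fst h2).symm
  · -- spn
    rw [eq_top_iff]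
    intro a _
    have h1 : ∀ (y : RR E) (hy : y ∈ AA hol N), e.symm ⟨y, hy⟩ ∈
        Submodule.span ℝ {a | ∃ ν ∈ N, ∀ p, hol ν p = Φ a p} := by
      intro y hy
      refine Submodule.span_induction (p := fun y hy => e.symm ⟨y, hy⟩ ∈
        Submodule.span ℝ {a | ∃ ν ∈ N, ∀ p, hol ν p = Φ a p}) ?_ ?_ ?_ ?_ hy
      · intro x hx
        obtain ⟨_, _, ν, hν, he, _⟩ := hx
        refine Submodule.subset_span ⟨ν, hν, hnu ν _ ?_⟩
        rw [he', e.apply_symm_apply]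
        exact he
      · have : e.symm ⟨0, Submodule.zero_mem _⟩ = 0 := e.symm.map_zero
        rw [this]; exact Submodule.zero_mem _
      · intro x y hx hy h1 h2
        have : e.symm ⟨x + y, Submodule.add_mem _ hx hy⟩ = e.symm ⟨x, hx⟩ + e.symm ⟨y, hy⟩ :=
          e.symm.map_add ⟨x, hx⟩ ⟨y, hy⟩
        rw [this]; exact Submodule.add_mem _ h1 h2
      · intro r x hx h1
        have : e.symm ⟨r • x, Submodule.smul_mem _ r hx⟩ = r • e.symm ⟨x, hx⟩ :=
          e.symm.map_smul r ⟨x, hx⟩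
        rw [this]; exact Submodule.smul_mem _ r h1
    have h2 := h1 (e a).1 (e a).2
    have h3 : e.symm ⟨(e a).1, (e a).2⟩ = a := e.symm_apply_apply a
    rwa [h3] at h2
  · -- sub
    intro ν hν
    obtain ⟨l, hl1, hl2, hl3, hl4⟩ := lg hlog (hol ν) (hu' ν hν)
    have hl : l ∈ AA hol N := Submodule.subset_span ⟨hl1, hl2, ν, hν, hl3, hl4⟩
    refine ⟨e.symm ⟨l, hl⟩, hnu ν _ ?_⟩
    rw [he', e.apply_symm_apply]
    exact hl3
  · -- faith
    intro a h
    have h1 : ∀ p, e' a (p, 1) = 0 := fun p => (hfix a p).mp (h p)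
    have h2 : e' a = 0 := by
      refine ContinuousLinearMap.ext fun x => ?_
      have h3 : x = (x.1, 1) + (x.2 - 1) • ((0, 1) : E × ℝ) := by
        refine Prod.ext ?_ ?_
        · show x.1 = x.1 + (x.2 - 1) • (0 : E)
          rw [smul_zero, add_zero]
        · show x.2 = 1 + (x.2 - 1) * 1
          ring
      rw [h3, map_add, map_smul, h1, h1, smul_zero, add_zero]
      rfl
    have h4 : e a = 0 := Subtype.ext h2
    exact e.map_eq_zero_iff.mp h4
  · -- line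
    intro a p h t
    rw [hfix] at h ⊢
    rw [map_smul]
    show t • e' a (p, 1) = 0
    rw [h, smul_zero]
  · -- imm
    intro a p h
    rw [hfix]
    let ev : RR E →L[ℝ] E := (ContinuousLinearMap.fst ℝ E ℝ).comp
      (ContinuousLinearMap.apply ℝ (E × ℝ) ((p, 1) : E × ℝ))
    have h1 : HasFDerivAt (NormedSpace.exp : RR E → RR E) (1 : RR E →L[ℝ] RR E) (e' 0) := by
      rw [map_zero]
      exact hasFDerivAt_exp_zero
    have h2 : HasFDerivAt (fun b => Φ b p) (ev.comp ((1 : RR E →L[ℝ] RR E).comp e')) 0 :=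
      ev.hasFDerivAt.comp 0 (h1.comp 0 e'.hasFDerivAt)
    rw [h2.fderiv] at h
    refine Prod.ext h (hsnd a _)

end Pool.Agent.P8H5.TU
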