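import Pool.Agent.P8H5.TU.Alg
import Pool.Agent.P8H67.TU.Stm3

/-!
Project TU, help for FLOWR: the linear map of `E × ℝ` of an affine map with positive spectrum.
-/

set_option autoImplicit false

open Set Filter Topology

namespace Pool.Agent.P8H5.TU

open Pool.Agent.P8H67.TU

section Lin
variable {W : Type} [NormedAddCommGroup W] [NormedSpace ℝ W]

/-- `M + c` is onto on the kernel of `M ^ k` -/
theorem onto_ker (M : Module.End ℝ W) (c : ℝ) (hc : c ≠ 0) : ∀ (k : ℕ) (y : W), (M ^ k) y = 0 →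
    ∃ z, (M ^ k) z = 0 ∧ M z + c • z = y := by
  intro k
  induction k with
  | zero =>
    intro y hy
    have hy' : y = 0 := hy
    refine ⟨0, rfl, ?_⟩
    rw [hy', map_zero, smul_zero, add_zero]
  | succ k ih =>
    intro y hy
    have h1 : (M ^ k) (M y) = 0 := by
      rw [pow_succ] at hy
      exact hy
    obtain ⟨z, hz, he⟩ := ih (M y) h1
    refine ⟨c⁻¹ • (y - z), ?_, ?_⟩
    · have h2 : (M ^ (k + 1)) z = 0 := by
        rw [pow_succ']
        show M ((M ^ k) z) = 0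
        rw [hz, map_zero]
      rw [map_smul, map_sub, hy, h2, sub_zero, smul_zero]
    · have h3 : M z = M y - c • z := eq_sub_of_add_eq he
      rw [map_smul, map_sub, h3, sub_sub_cancel, smul_smul, smul_smul, inv_mul_cancel₀ hc,
        mul_inv_cancel₀ hc, one_smul, one_smul, add_sub_cancel]

/-- the sum of the generalized eigenspaces for positive numbers -/
def PS (A : Module.End ℝ W) : Submodule ℝ W :=
  ⨆ μ : {μ : ℝ // 0 < μ}, Module.End.maxGenEigenspace A μ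

theorem ps_mem (A : Module.End ℝ W) (μ : ℝ) (hμ : 0 < μ) (k : ℕ) (x : W)
    (h : ((A - μ • (1 : Module.End ℝ W)) ^ k) x = 0) : x ∈ PS A :=
  Submodule.mem_iSup_of_mem ⟨μ, hμ⟩ ((Module.End.mem_maxGenEigenspace _ _ _).mpr ⟨k, h⟩)

theorem ps_one (A : Module.End ℝ W) (x : W) (h : A x - x ∈ PS A) : x ∈ PS A := by
  have key : ∀ y ∈ PS A, ∃ z ∈ PS A, ∃ k : ℕ,
      ((A - (1 : ℝ) • (1 : Module.End ℝ W)) ^ k) (A z - z - y) = 0 := by
    intro y hy
    refine Submodule.iSup_induction _ (motive := fun y => ∃ z ∈ PS A, ∃ k : ℕ,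
      ((A - (1 : ℝ) • (1 : Module.End ℝ W)) ^ k) (A z - z - y) = 0) hy ?_ ?_ ?_
    · rintro ⟨μ, hμ⟩ y hy
      obtain ⟨k, hk⟩ := (Module.End.mem_maxGenEigenspace _ _ _).mp hy
      by_cases h1 : μ = 1
      · refine ⟨0, Submodule.zero_mem _, k, ?_⟩
        rw [map_zero, sub_zero, zero_sub, map_neg, ← h1]
        exact neg_eq_zero.mpr hk
      · obtain ⟨z, hz, he⟩ := onto_ker (A - μ • (1 : Module.End ℝ W)) (μ - 1)
          (sub_ne_zero.mpr h1) k y hk
        refine ⟨z, ps_mem A μ hμ k z hz, 0, ?_⟩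
        show A z - z - y = 0
        rw [← he]
        show A z - z - (A z - μ • z + (μ - 1) • z) = 0
        rw [sub_smul, one_smul]
        abel
    · refine ⟨0, Submodule.zero_mem _, 0, ?_⟩
      show A 0 - 0 - 0 = 0
      rw [map_zero, sub_zero, sub_zero]
    · rintro y y' ⟨z, hz, k, hk⟩ ⟨z', hz', k', hk'⟩
      refine ⟨z + z', Submodule.add_mem _ hz hz', k + k', ?_⟩
      have h1 : A (z + z') - (z + z') - (y + y') = (A z - z - y) + (A z' - z' - y') := by
        rw [map_add]; abel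
      have h2 : ((A - (1 : ℝ) • (1 : Module.End ℝ W)) ^ (k + k')) (A z' - z' - y') = 0 := by
        rw [pow_add]
        show ((A - (1 : ℝ) • (1 : Module.End ℝ W)) ^ k)
          (((A - (1 : ℝ) • (1 : Module.End ℝ W)) ^ k') (A z' - z' - y')) = 0
        rw [hk', map_zero]
      have h3 : ((A - (1 : ℝ) • (1 : Module.End ℝ W)) ^ (k + k')) (A z - z - y) = 0 := by
        rw [add_comm k k', pow_add]
        show ((A - (1 : ℝ) • (1 : Module.End ℝ W)) ^ k')
          (((A - (1 : ℝ) • (1 : Module.End ℝ W)) ^ k) (A z - z - y)) = 0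
        rw [hk, map_zero]
      rw [h1, map_add, h2, h3, add_zero]
  obtain ⟨z, hz, k, hk⟩ := key _ h
  have h1 : z - x ∈ PS A := by
    refine ps_mem A 1 one_pos (k + 1) _ ?_
    rw [pow_succ]
    show ((A - (1 : ℝ) • (1 : Module.End ℝ W)) ^ k) (A (z - x) - (1 : ℝ) • (z - x)) = 0
    have h2 : A (z - x) - (1 : ℝ) • (z - x) = A z - z - (A x - x) := by
      rw [one_smul, map_sub]; abel
    rw [h2]
    exact hk
  have h2 := Submodule.sub_mem _ hz h1
  rwa [sub_sub_cancel] at h2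

end Lin

section Hom
variable {E : Type} [NormedAddCommGroup E] [NormedSpace ℝ E] [FiniteDimensional ℝ E]

theorem pos_hmm (g : E ≃ᵃ[ℝ] E) (h : PosSpec (g.linear : E →ₗ[ℝ] E)) :
    PosSpec ((hmm g : (E × ℝ) →L[ℝ] (E × ℝ)) : (E × ℝ) →ₗ[ℝ] (E × ℝ)) := by
  let L : Module.End ℝ E := (g.linear : E →ₗ[ℝ] E)
  let A : Module.End ℝ (E × ℝ) := ((hmm g : (E × ℝ) →L[ℝ] (E × ℝ)) : (E × ℝ) →ₗ[ℝ] (E × ℝ))
  have hA : ∀ x : E × ℝ, A x = (ln g x.1 + x.2 • g 0, x.2) := fun x => rfl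
  have h0 : ∀ (μ : ℝ) (k : ℕ) (v : E), ((A - μ • (1 : Module.End ℝ (E × ℝ))) ^ k) (v, 0) =
      (((L - μ • (1 : Module.End ℝ E)) ^ k) v, 0) := by
    intro μ k
    induction k with
    | zero => intro v; rfl
    | succ k ih =>
      intro v
      rw [pow_succ, pow_succ]
      show ((A - μ • (1 : Module.End ℝ (E × ℝ))) ^ k) ((A - μ • (1 : Module.End ℝ (E × ℝ))) (v, 0)) =
        (((L - μ • (1 : Module.End ℝ E)) ^ k) ((L - μ • (1 : Module.End ℝ E)) v), 0)
      rw [← ih]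
      refine congrArg _ (Prod.ext ?_ ?_)
      · show ln g v + (0 : ℝ) • g 0 - μ • v = g.linear v - μ • v
        rw [zero_smul, add_zero]; rfl
      · show (0 : ℝ) - μ • 0 = 0
        rw [smul_zero, sub_zero]
  have h1 : ∀ v : E, ((v, 0) : E × ℝ) ∈ PS A := by
    intro v
    have hv : v ∈ PS L := by
      have h2 : PS L = ⊤ := h
      rw [h2]; trivial
    refine Submodule.iSup_induction _ (motive := fun v => ((v, 0) : E × ℝ) ∈ PS A) hv ?_ ?_ ?_
    · rintro ⟨μ, hμ⟩ y hy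
      obtain ⟨k, hk⟩ := (Module.End.mem_maxGenEigenspace _ _ _).mp hy
      refine ps_mem A μ hμ k _ ?_
      rw [h0, hk]
      rfl
    · exact Submodule.zero_mem _
    · intro x y hx hy
      have h3 : ((x + y, 0) : E × ℝ) = (x, 0) + (y, 0) := by
        rw [Prod.mk_add_mk, add_zero]
      rw [h3]
      exact Submodule.add_mem _ hx hy
  have h2 : ((0, 1) : E × ℝ) ∈ PS A := by
    refine ps_one A _ ?_
    have h3 : A (0, 1) - (0, 1) = (g 0, 0) := by
      rw [hA]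
      refine Prod.ext ?_ ?_
      · show ln g 0 + (1 : ℝ) • g 0 - 0 = g 0
        rw [map_zero, zero_add, one_smul, sub_zero]
      · show (1 : ℝ) - 1 = 0
        exact sub_self _
    rw [h3]
    exact h1 _
  show PS A = ⊤
  rw [eq_top_iff]
  intro x _
  have h3 : x = (x.1, 0) + x.2 • ((0, 1) : E × ℝ) := by
    refine Prod.ext ?_ ?_
    · show x.1 = x.1 + x.2 • (0 : E)
      rw [smul_zero, add_zero]
    · show x.2 = 0 + x.2 * 1
      ring
  rw [h3]
  exact Submodule.add_mem _ (h1 _) (Submodule.smul_mem _ _ h2)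

theorem exp_snd3 (l : (E × ℝ) →L[ℝ] (E × ℝ)) (c : ℝ) (h : ∀ x, (l x).2 = c * x.2) (x : E × ℝ) :
    (NormedSpace.exp l x).2 = Real.exp c * x.2 := by
  have : CompleteSpace (E × ℝ) := FiniteDimensional.complete ℝ _
  have h0 : ∀ n : ℕ, ((l ^ n) x).2 = c ^ n * x.2 := by
    intro n
    induction n with
    | zero => rw [pow_zero, pow_zero, one_mul]; rfl
    | succ n ih =>
      rw [pow_succ', pow_succ']
      show (l ((l ^ n) x)).2 = c * c ^ n * x.2
      rw [h, ih, mul_assoc]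
  let T : ((E × ℝ) →L[ℝ] (E × ℝ)) →L[ℝ] ℝ := (ContinuousLinearMap.snd ℝ E ℝ).comp
    (ContinuousLinearMap.apply ℝ (E × ℝ) x)
  have h1 := (NormedSpace.exp_series_hasSum_exp' (𝕂 := ℝ) l).mapL T
  have h2 : (fun n : ℕ => T ((n.factorial : ℝ)⁻¹ • l ^ n)) =
      fun n : ℕ => ((n.factorial : ℝ)⁻¹ • c ^ n) * x.2 := by
    funext n
    rw [map_smul]
    show (n.factorial : ℝ)⁻¹ • ((l ^ n) x).2 = _
    rw [h0, smul_eq_mul, smul_eq_mul, mul_assoc]
  rw [h2] at h1
  have h3 := (NormedSpace.exp_series_hasSum_exp' (𝕂 := ℝ) c).mul_right x.2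
  rw [Real.exp_eq_exp_ℝ]
  exact h1.unique h3

theorem exp_snd2 (l : (E × ℝ) →L[ℝ] (E × ℝ)) (h : ∀ x, (l x).2 = 0) (x : E × ℝ) :
    (NormedSpace.exp l x).2 = x.2 := by
  rw [exp_snd3 l 0 (fun x => by rw [h, zero_mul]), Real.exp_zero, one_mul]

theorem lsnd (g : E ≃ᵃ[ℝ] E) (l : (E × ℝ) →L[ℝ] (E × ℝ)) (he : NormedSpace.exp l = hmm g)
    (h : ∀ S : Submodule ℝ (E × ℝ), (∀ q ∈ S, hmm g q ∈ S) → ∀ q ∈ S, l q ∈ S) (x : E × ℝ) :
    (l x).2 = 0 := by
  have h0 : ∀ v : E, (l (v, 0)).2 = 0 := by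
    intro v
    have h1 := h (LinearMap.ker (LinearMap.snd ℝ E ℝ)) (fun q hq => by
      rw [LinearMap.mem_ker] at hq ⊢
      exact hq) (v, 0) (by rw [LinearMap.mem_ker]; rfl)
    rw [LinearMap.mem_ker] at h1
    exact h1
  have h1 : ∀ x, (l x).2 = (l (0, 1)).2 * x.2 := by
    intro x
    have h3 : x = (x.1, 0) + x.2 • ((0, 1) : E × ℝ) := by
      refine Prod.ext ?_ ?_
      · show x.1 = x.1 + x.2 • (0 : E)
        rw [smul_zero, add_zero]
      · show x.2 = 0 + x.2 * 1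
        ring
    have h4 : l x = l (x.1, 0) + x.2 • l (0, 1) := by
      conv_lhs => rw [h3]
      rw [map_add, map_smul]
    rw [h4]
    show (l (x.1, 0)).2 + x.2 * (l (0, 1)).2 = _
    rw [h0, zero_add, mul_comm]
  have h2 := exp_snd3 l _ h1 (0, 1)
  rw [he] at h2
  have h3 : (1 : ℝ) = Real.exp (l (0, 1)).2 * 1 := h2
  rw [mul_one] at h3
  have h4 : (l (0, 1)).2 = 0 := (Real.exp_eq_one_iff _).mp h3.symm
  rw [h1, h4, zero_mul]

end Hom

end Pool.Agent.P8H5.TU
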